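import Pool.Agent.H56.FH.Tree

/-!
The graph associahedron of every finite tree with at least three vertices has a
facet-Hamiltonian cycle.
-/

open Pool.Agent.H56.FH in
theorem Pool.Agent.Results.MP_bea9c3_co.TreeFacetHamiltonian.result
    {V : Type*} [Fintype V] [DecidableEq V] (G : SimpleGraph V) (hG : G.IsTree)
    (h3 : 3 ≤ Fintype.card V) : FacetHamiltonian G :=
  facetHamiltonian_tree G hG h3
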